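import Mathlib

/-!
# A group of functions on `ω₂` built from ladders

The combinatorial core: the subgroup `H` of `I → ℤ` (`I` of order type `ω₂`) generated by the
unit vectors and by the indicators of ladders at points of countable cofinality has the property
that no suitable subset generates a dense subgroup.
-/

open Cardinal Set

namespace Q16.Lad

/-- A well-ordered index set like `ω₂`: all sets of size at most `ℵ₁` are bounded and all initial
segments have size at most `ℵ₁`. -/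
class Idx (I : Type) [LinearOrder I] [WellFoundedLT I] : Prop where
  bdd : ∀ s : Set I, #s ≤ ℵ₁ → ∃ β, ∀ x ∈ s, x < β
  card : ∀ α : I, #(Set.Iio α) ≤ ℵ₁

theorem bdd_of_regular {c : Cardinal.{0}} (hc : c.IsRegular) (s : Set c.ord.ToType) (hs : #s < c) :
    ∃ β, ∀ x ∈ s, x < β := by
  by_contra h
  push Not at h
  have h1 : IsCofinal s := fun x => by
    obtain ⟨y, hy, hxy⟩ := h x
    exact ⟨y, hy, hxy⟩
  have h2 := Order.cof_le h1
  have h3 : Order.cof c.ord.ToType = c := by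
    rw [Ordinal.cof_toType]
    exact hc.cof_ord
  rw [h3] at h2
  exact absurd hs (not_lt.2 h2)

theorem exists_idx : ∃ (I : Type) (_ : LinearOrder I) (_ : WellFoundedLT I), Idx I := by
  refine ⟨(Order.succ (ℵ₁ : Cardinal.{0})).ord.ToType, inferInstance, inferInstance, ?_, ?_⟩
  · intro s hs
    exact bdd_of_regular (isRegular_succ (aleph0_le_aleph 1)) s (Order.lt_succ_iff.2 hs)
  · intro α
    apply Order.lt_succ_iff.1
    have := mk_Iio_lt (α := (Order.succ (ℵ₁ : Cardinal.{0})).ord.ToType) α (by simp)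
    simpa using this

/-- An index set like `ω₁`. -/
theorem exists_omega1 : ∃ (W : Type) (_ : LinearOrder W) (_ : WellFoundedLT W),
    (∀ s : Set W, s.Countable → ∃ β, ∀ x ∈ s, x < β) ∧ #W ≤ ℵ₁ := by
  refine ⟨(ℵ₁ : Cardinal.{0}).ord.ToType, inferInstance, inferInstance, ?_, ?_⟩
  · intro s hs
    apply bdd_of_regular isRegular_aleph_one s
    refine lt_of_le_of_lt hs.le_aleph0 ?_
    exact aleph0_lt_aleph_one
  · simp

variable {I : Type} [LinearOrder I] [WellFoundedLT I]

/-- The ambient ordered group. -/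
abbrev L (I : Type) : Type := Lex (I → ℤ)

/-- Coordinates. -/
def co (x : L I) (ξ : I) : ℤ := ofLex x ξ

omit [LinearOrder I] [WellFoundedLT I] in
theorem ext_co {x y : L I} (h : ∀ ξ, co x ξ = co y ξ) : x = y := funext h

omit [LinearOrder I] [WellFoundedLT I] in
@[simp] theorem co_add (x y : L I) (ξ : I) : co (x + y) ξ = co x ξ + co y ξ := rfl

omit [LinearOrder I] [WellFoundedLT I] in
@[simp] theorem co_neg (x : L I) (ξ : I) : co (-x) ξ = -co x ξ := rfl

omit [LinearOrder I] [WellFoundedLT I] in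
@[simp] theorem co_zero (ξ : I) : co (0 : L I) ξ = 0 := rfl

omit [LinearOrder I] [WellFoundedLT I] in
@[simp] theorem co_sub (x y : L I) (ξ : I) : co (x - y) ξ = co x ξ - co y ξ := rfl

/-- Agreement below `α`. -/
def Ag (α : I) (x y : L I) : Prop := ∀ ξ < α, co x ξ = co y ξ

/-- Unit vectors. -/
noncomputable def e (ξ : I) : L I := toLex fun η => if η = ξ then 1 else 0

theorem co_e (ξ η : I) : co (e ξ) η = if η = ξ then 1 else 0 := rfl

/-- Points of countable cofinality. -/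
def E (I : Type) [LinearOrder I] : Set I :=
  {γ | ∃ s : ℕ → I, StrictMono s ∧ (∀ n, s n < γ) ∧ ∀ β < γ, ∃ n, β ≤ s n}

/-- The ladders. -/
noncomputable def lad (γ : I) (h : γ ∈ E I) : ℕ → I := h.choose

omit [WellFoundedLT I] in
theorem lad_lt (γ : I) (h : γ ∈ E I) (n : ℕ) : lad γ h n < γ := h.choose_spec.2.1 n

omit [WellFoundedLT I] in
theorem lad_mono (γ : I) (h : γ ∈ E I) : StrictMono (lad γ h) := h.choose_spec.1

omit [WellFoundedLT I] in
theorem lad_cof (γ : I) (h : γ ∈ E I) (β : I) (hβ : β < γ) : ∃ n, β ≤ lad γ h n :=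
  h.choose_spec.2.2 β hβ

open Classical in
/-- The ladder indicators. -/
noncomputable def ga (γ : I) : L I := toLex fun ξ => if ∃ h : γ ∈ E I, ∃ n, lad γ h n = ξ then 1 else 0

omit [WellFoundedLT I] in
theorem ga_zero (γ ξ : I) (h : γ ≤ ξ) : co (ga γ) ξ = 0 := by
  classical
  change (if ∃ h : γ ∈ E I, ∃ n, lad γ h n = ξ then (1 : ℤ) else 0) = 0
  rw [if_neg]
  rintro ⟨hE, n, rfl⟩
  exact absurd (lad_lt γ hE n) (not_lt.2 h)

omit [WellFoundedLT I] in
theorem ga_notE (γ ξ : I) (h : γ ∉ E I) : co (ga γ) ξ = 0 := by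
  classical
  change (if ∃ h : γ ∈ E I, ∃ n, lad γ h n = ξ then (1 : ℤ) else 0) = 0
  rw [if_neg]
  rintro ⟨hE, -⟩
  exact h hE

omit [WellFoundedLT I] in
theorem ga_unbdd (γ : I) (h : γ ∈ E I) (β : I) (hβ : β < γ) :
    ∃ ξ, β ≤ ξ ∧ ξ < γ ∧ co (ga γ) ξ = 1 := by
  classical
  obtain ⟨n, hn⟩ := lad_cof γ h β hβ
  refine ⟨lad γ h n, hn, lad_lt γ h n, ?_⟩
  change (if ∃ h' : γ ∈ E I, ∃ m, lad γ h' m = lad γ h n then (1 : ℤ) else 0) = 1
  rw [if_pos ⟨h, n, rfl⟩]

omit [WellFoundedLT I] in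
theorem ga_finite (γ α : I) (hα : α < γ) : {ξ | ξ < α ∧ co (ga γ) ξ ≠ 0}.Finite := by
  classical
  by_cases h : γ ∈ E I
  · obtain ⟨n, hn⟩ := lad_cof γ h α hα
    apply ((Finset.range n).image (lad γ h)).finite_toSet.subset
    rintro ξ ⟨hξ, hne⟩
    change (if ∃ h : γ ∈ E I, ∃ n, lad γ h n = ξ then (1 : ℤ) else 0) ≠ 0 at hne
    have h1 : ∃ h : γ ∈ E I, ∃ n, lad γ h n = ξ := by
      by_contra hc
      exact hne (if_neg hc)
    obtain ⟨_, m, rfl⟩ := h1
    simp only [Finset.coe_image, Finset.coe_range, mem_image, mem_Iio]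
    refine ⟨m, ?_, rfl⟩
    exact (lad_mono γ h).lt_iff_lt.1 (lt_of_lt_of_le hξ hn)
  · have : {ξ | ξ < α ∧ co (ga γ) ξ ≠ 0} = ∅ := by
      ext ξ
      simp [ga_notE γ ξ h]
    rw [this]
    exact finite_empty

omit [WellFoundedLT I] in
theorem ga_01 (γ ξ : I) : co (ga γ) ξ = 0 ∨ co (ga γ) ξ = 1 := by
  classical
  change (if ∃ h : γ ∈ E I, ∃ n, lad γ h n = ξ then (1 : ℤ) else 0) = 0 ∨
    (if ∃ h : γ ∈ E I, ∃ n, lad γ h n = ξ then (1 : ℤ) else 0) = 1
  split_ifs <;> simp

/-- The generators. -/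
noncomputable def gen : I ⊕ I → L I
  | Sum.inl ξ => e ξ
  | Sum.inr γ => ga γ

/-- The group. -/
noncomputable def H (I : Type) [LinearOrder I] [WellFoundedLT I] : AddSubgroup (L I) :=
  AddSubgroup.closure (range (gen (I := I)))

theorem e_mem (ξ : I) : e ξ ∈ H I := AddSubgroup.subset_closure ⟨Sum.inl ξ, rfl⟩

theorem ga_mem (γ : I) : ga γ ∈ H I := AddSubgroup.subset_closure ⟨Sum.inr γ, rfl⟩

/-- Truncation. -/
noncomputable def tr (α : I) : L I →+ L I where
  toFun x := toLex fun ξ => if ξ < α then co x ξ else 0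
  map_zero' := by
    apply ext_co
    intro ξ
    change (if ξ < α then (0 : ℤ) else 0) = 0
    simp
  map_add' x y := by
    apply ext_co
    intro ξ
    change (if ξ < α then co x ξ + co y ξ else 0) =
      (if ξ < α then co x ξ else 0) + (if ξ < α then co y ξ else 0)
    split_ifs <;> simp

theorem co_tr (α : I) (x : L I) (ξ : I) : co (tr α x) ξ = if ξ < α then co x ξ else 0 := rfl

theorem ag_tr (α : I) (x : L I) : Ag α (tr α x) x := by
  intro ξ hξ
  rw [co_tr, if_pos hξ]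

/-- The generators of the truncations. -/
noncomputable def genA (α : I) : (Iio α) ⊕ (Iic α) → L I
  | Sum.inl ξ => e ξ.1
  | Sum.inr γ => ga γ.1

theorem tr_gen_mem (α : I) (i : I ⊕ I) : tr α (gen i) ∈ AddSubgroup.closure (range (genA α)) := by
  classical
  have he : ∀ ξ, ξ < α → e ξ ∈ AddSubgroup.closure (range (genA α)) := fun ξ hξ =>
    AddSubgroup.subset_closure ⟨Sum.inl ⟨ξ, hξ⟩, rfl⟩
  cases i with
  | inl ξ =>
    change tr α (e ξ) ∈ _
    by_cases h : ξ < α
    · have : tr α (e ξ) = e ξ := by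
        apply ext_co
        intro η
        rw [co_tr, co_e]
        by_cases h1 : η = ξ
        · subst h1
          simp [h]
        · simp [h1]
      rw [this]
      exact he ξ h
    · have : tr α (e ξ) = 0 := by
        apply ext_co
        intro η
        rw [co_tr, co_e, co_zero]
        by_cases h1 : η = ξ
        · subst h1
          simp [h]
        · simp [h1]
      rw [this]
      exact zero_mem _
  | inr γ =>
    change tr α (ga γ) ∈ _
    by_cases h : γ ≤ α
    · have : tr α (ga γ) = ga γ := by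
        apply ext_co
        intro η
        rw [co_tr]
        split_ifs with h1
        · rfl
        · rw [ga_zero γ η (h.trans (not_lt.1 h1))]
      rw [this]
      exact AddSubgroup.subset_closure ⟨Sum.inr ⟨γ, h⟩, rfl⟩
    · have hfin := ga_finite γ α (not_le.1 h)
      have : tr α (ga γ) = ∑ ξ ∈ hfin.toFinset, e ξ := by
        apply ext_co
        intro η
        have hsum : co (∑ ξ ∈ hfin.toFinset, e ξ) η = ∑ ξ ∈ hfin.toFinset, co (e ξ) η := by
          induction hfin.toFinset using Finset.induction_on with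
          | empty => rfl
          | insert a s ha ih => rw [Finset.sum_insert ha, Finset.sum_insert ha, co_add, ih]
        rw [hsum, co_tr]
        simp only [co_e]
        rw [Finset.sum_ite_eq]
        by_cases h1 : η < α
        · rw [if_pos h1]
          rcases ga_01 γ η with h2 | h2
          · rw [h2, if_neg]
            simp [h2]
          · rw [h2, if_pos]
            simp [h2, h1]
        · rw [if_neg h1, if_neg]
          simp [h1]
      rw [this]
      apply sum_mem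
      intro ξ hξ
      rw [Finite.mem_toFinset] at hξ
      exact he ξ hξ.1

theorem tr_mem' (α : I) (x : L I) (hx : x ∈ H I) :
    tr α x ∈ AddSubgroup.closure (range (genA α)) := by
  induction hx using AddSubgroup.closure_induction with
  | mem x hx =>
    obtain ⟨i, rfl⟩ := hx
    exact tr_gen_mem α i
  | zero => rw [map_zero]; exact zero_mem _
  | add x y _ _ hx hy => rw [map_add]; exact add_mem hx hy
  | neg x _ hx => rw [map_neg]; exact neg_mem hx

theorem tr_mem (α : I) (x : L I) (hx : x ∈ H I) : tr α x ∈ H I := by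
  have h := tr_mem' α x hx
  refine (AddSubgroup.closure_mono ?_) h
  rintro _ ⟨i, rfl⟩
  cases i with
  | inl ξ => exact ⟨Sum.inl ξ.1, rfl⟩
  | inr γ => exact ⟨Sum.inr γ.1, rfl⟩

theorem card_closure {A ι : Type} [AddCommGroup A] (u : ι → A) :
    #(AddSubgroup.closure (range u)) ≤ max #ι ℵ₀ := by
  have h1 : AddSubgroup.closure (range u) ≤ (FreeAbelianGroup.lift u).range := by
    rw [AddSubgroup.closure_le]
    rintro _ ⟨i, rfl⟩
    exact ⟨FreeAbelianGroup.of i, by simp⟩
  have h2 : #(AddSubgroup.closure (range u)) ≤ #((FreeAbelianGroup.lift u).range) :=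
    mk_le_mk_of_subset h1
  have h3 : #((FreeAbelianGroup.lift u).range) ≤ #(FreeAbelianGroup ι) := by
    have := mk_range_le (f := FreeAbelianGroup.lift u)
    exact this
  refine h2.trans (h3.trans ?_)
  cases isEmpty_or_nonempty ι with
  | inl h =>
    refine le_max_of_le_right ?_
    have : Subsingleton (FreeAbelianGroup ι) := inferInstance
    exact (le_one_iff_subsingleton.2 this).trans one_le_aleph0
  | inr h => rw [mk_freeAbelianGroup]

variable [Idx I]

theorem card_tr (α : I) : #{y : L I | ∃ x ∈ H I, y = tr α x} ≤ ℵ₁ := by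
  have h1 : {y : L I | ∃ x ∈ H I, y = tr α x} ⊆
      ((AddSubgroup.closure (range (genA α)) : AddSubgroup (L I)) : Set (L I)) := by
    rintro _ ⟨x, hx, rfl⟩
    exact tr_mem' α x hx
  refine (mk_le_mk_of_subset h1).trans ((card_closure _).trans ?_)
  apply max_le
  · rw [mk_sum, lift_id, lift_id]
    have h2 : #(Iic α) ≤ ℵ₁ := by
      have : Iic α = insert α (Iio α) := by
        ext x
        simp [le_iff_eq_or_lt]
      rw [this]
      refine (mk_insert_le).trans ?_
      refine (add_le_add_left (Idx.card α) 1).trans ?_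
      rw [add_one_eq (aleph0_le_aleph 1)]
    refine (add_le_add (Idx.card α) h2).trans ?_
    rw [add_eq_self (aleph0_le_aleph 1)]
  · exact aleph0_le_aleph 1

theorem idx_nonempty : Nonempty I := by
  obtain ⟨β, -⟩ := Idx.bdd (∅ : Set I) (by simp)
  exact ⟨β⟩

/-- There is something above. -/
theorem exists_gt' (α : I) : ∃ β, α < β := by
  obtain ⟨β, hβ⟩ := Idx.bdd ({α} : Set I) (by
    rw [mk_singleton]
    exact one_le_aleph0.trans (aleph0_le_aleph 1))
  exact ⟨β, hβ α rfl⟩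

theorem supp_bdd (x : L I) (hx : x ∈ H I) : ∃ β, ∀ ξ, β ≤ ξ → co x ξ = 0 := by
  induction hx using AddSubgroup.closure_induction with
  | mem x hx =>
    obtain ⟨i, rfl⟩ := hx
    cases i with
    | inl ξ =>
      obtain ⟨β, hβ⟩ := exists_gt' ξ
      refine ⟨β, fun η hη => ?_⟩
      change co (e ξ) η = 0
      rw [co_e, if_neg (lt_of_lt_of_le hβ hη).ne']
    | inr γ => exact ⟨γ, fun η hη => ga_zero γ η hη⟩
  | zero =>
    obtain ⟨β, -⟩ := Idx.bdd (∅ : Set I) (by simp)
    exact ⟨β, fun _ _ => rfl⟩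
  | add x y _ _ hx hy =>
    obtain ⟨b, hb⟩ := hx
    obtain ⟨c, hc⟩ := hy
    refine ⟨max b c, fun ξ hξ => ?_⟩
    rw [co_add, hb ξ ((le_max_left _ _).trans hξ), hc ξ ((le_max_right _ _).trans hξ), add_zero]
  | neg x _ hx =>
    obtain ⟨b, hb⟩ := hx
    refine ⟨b, fun ξ hξ => ?_⟩
    rw [co_neg, hb ξ hξ, neg_zero]

omit [Idx I] in
/-- Boundedness below a point which is a limit not of countable cofinality. -/
theorem supp_bdd_below (δ : I) (hE : δ ∉ E I) (hlim : ∀ β < δ, ∃ α < δ, β < α) (h0 : ∃ α, α < δ)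
    (x : L I) (hx : x ∈ H I) : ∃ α < δ, ∀ ξ, α ≤ ξ → ξ < δ → co x ξ = 0 := by
  obtain ⟨α₀, hα₀⟩ := h0
  induction hx using AddSubgroup.closure_induction with
  | mem x hx =>
    obtain ⟨i, rfl⟩ := hx
    cases i with
    | inl ξ =>
      by_cases h : ξ < δ
      · obtain ⟨α, hα, hξα⟩ := hlim ξ h
        refine ⟨α, hα, fun η hη _ => ?_⟩
        change co (e ξ) η = 0
        rw [co_e, if_neg (lt_of_lt_of_le hξα hη).ne']
      · refine ⟨α₀, hα₀, fun η _ hη => ?_⟩
        change co (e ξ) η = 0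
        rw [co_e, if_neg]
        rintro rfl
        exact h hη
    | inr γ =>
      rcases lt_trichotomy γ δ with h | h | h
      · exact ⟨γ, h, fun η hη _ => ga_zero γ η hη⟩
      · subst h
        exact ⟨α₀, hα₀, fun η _ _ => ga_notE γ η hE⟩
      · have hfin := ga_finite γ δ h
        -- a bound for the finite set
        have hb : ∃ α < δ, ∀ ξ ∈ hfin.toFinset, ξ < α := by
          have : ∀ F : Finset I, (∀ ξ ∈ F, ξ < δ) → ∃ α < δ, ∀ ξ ∈ F, ξ < α := by
            intro F
            classical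
            induction F using Finset.induction_on with
            | empty => intro _; exact ⟨α₀, hα₀, by simp⟩
            | insert a s ha ih =>
              intro hF
              obtain ⟨α, hα, h1⟩ := ih fun ξ hξ => hF ξ (Finset.mem_insert_of_mem hξ)
              obtain ⟨α', hα', h2⟩ := hlim a (hF a (Finset.mem_insert_self a s))
              refine ⟨max α α', max_lt hα hα', fun ξ hξ => ?_⟩
              rcases Finset.mem_insert.1 hξ with rfl | h3
              · exact lt_of_lt_of_le h2 (le_max_right _ _)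
              · exact lt_of_lt_of_le (h1 ξ h3) (le_max_left _ _)
          apply this
          intro ξ hξ
          rw [Finite.mem_toFinset] at hξ
          exact hξ.1
        obtain ⟨α, hα, h1⟩ := hb
        refine ⟨α, hα, fun η hη hηδ => ?_⟩
        by_contra hne
        have := h1 η (by rw [Finite.mem_toFinset]; exact ⟨hηδ, hne⟩)
        exact absurd hη (not_le.2 this)
  | zero => exact ⟨α₀, hα₀, fun _ _ _ => rfl⟩
  | add x y _ _ hx hy =>
    obtain ⟨b, hbδ, hb⟩ := hx
    obtain ⟨c, hcδ, hc⟩ := hy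
    refine ⟨max b c, max_lt hbδ hcδ, fun ξ hξ hξδ => ?_⟩
    rw [co_add, hb ξ ((le_max_left _ _).trans hξ) hξδ, hc ξ ((le_max_right _ _).trans hξ) hξδ,
      add_zero]
  | neg x _ hx =>
    obtain ⟨b, hbδ, hb⟩ := hx
    refine ⟨b, hbδ, fun ξ hξ hξδ => ?_⟩
    rw [co_neg, hb ξ hξ hξδ, neg_zero]

/-- Least upper bounds. -/
theorem exists_lub {J : Type} (F : J → I) (hJ : #J ≤ ℵ₁) :
    ∃ δ, (∀ j, F j < δ) ∧ ∀ α < δ, ∃ j, α ≤ F j := by
  obtain ⟨β, hβ⟩ := Idx.bdd (range F) (mk_range_le.trans hJ)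
  have hne : {β | ∀ j, F j < β}.Nonempty := ⟨β, fun j => hβ _ ⟨j, rfl⟩⟩
  have hwf : WellFounded ((· < ·) : I → I → Prop) := wellFounded_lt
  refine ⟨hwf.min _ hne, hwf.min_mem _ hne, fun α hα => ?_⟩
  by_contra hc
  push Not at hc
  exact hwf.not_lt_min {β | ∀ j, F j < β} hc hα

/-- Points closed under a function and not of countable cofinality. -/
theorem exists_delta (h : I → I) : ∃ δ : I, (∀ α < δ, h α < δ) ∧ δ ∉ E I ∧
    (∀ β < δ, ∃ α < δ, β < α) ∧ ∃ α, α < δ := by
  obtain ⟨W, _, _, hW, hcard⟩ := exists_omega1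
  -- a bound of `h` on initial segments
  have hstep : ∀ α : I, ∃ β, α < β ∧ ∀ α' ≤ α, h α' < β := by
    intro α
    obtain ⟨β, hβ⟩ := Idx.bdd ((h '' Iic α) ∪ {α}) (by
      refine (mk_union_le _ _).trans ?_
      have h2 : #(Iic α) ≤ ℵ₁ := by
        have : Iic α = insert α (Iio α) := by
          ext x
          simp [le_iff_eq_or_lt]
        rw [this]
        refine (mk_insert_le).trans ?_
        refine (add_le_add_left (Idx.card α) 1).trans ?_
        rw [add_one_eq (aleph0_le_aleph 1)]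
      refine (add_le_add (mk_image_le.trans h2) (mk_singleton α).le).trans ?_
      rw [add_one_eq (aleph0_le_aleph 1)])
    exact ⟨β, hβ α (Or.inr rfl), fun α' hα' => hβ _ (Or.inl ⟨α', hα', rfl⟩)⟩
  choose h' hh' hh using hstep
  -- transfinite recursion
  have hwf : WellFounded ((· < ·) : W → W → Prop) := wellFounded_lt
  have hrec : ∃ F : W → I, ∀ i j, j < i → h' (F j) < F i := by
    have hb : ∀ (i : W) (f : ∀ j, j < i → I), ∃ β, ∀ j (hj : j < i), h' (f j hj) < β := by
      intro i f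
      obtain ⟨β, hβ⟩ := Idx.bdd (range fun j : Iio i => h' (f j.1 j.2)) (by
        refine mk_range_le.trans (le_trans ?_ hcard)
        exact mk_subtype_le _)
      exact ⟨β, fun j hj => hβ _ ⟨⟨j, hj⟩, rfl⟩⟩
    choose B hB using hb
    refine ⟨hwf.fix B, fun i j hij => ?_⟩
    rw [hwf.fix_eq B i]
    exact hB i (fun j _ => hwf.fix B j) j hij
  obtain ⟨F, hF⟩ := hrec
  obtain ⟨δ, hδ1, hδ2⟩ := exists_lub F hcard
  have hsucc : ∀ i : W, ∃ i', i < i' := by
    intro i
    obtain ⟨i', hi'⟩ := hW {i} (countable_singleton i)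
    exact ⟨i', hi' i rfl⟩
  have hne : Nonempty W := by
    obtain ⟨i, -⟩ := hW ∅ countable_empty
    exact ⟨i⟩
  refine ⟨δ, ?_, ?_, ?_, ?_⟩
  · intro α hα
    obtain ⟨i, hi⟩ := hδ2 α hα
    obtain ⟨i', hi'⟩ := hsucc i
    exact (hh (F i) α hi).trans ((hF i' i hi').trans (hδ1 i'))
  · rintro ⟨s, -, hs1, hs2⟩
    choose j hj using fun n => hδ2 (s n) (hs1 n)
    obtain ⟨i, hi⟩ := hW (range j) (countable_range j)
    obtain ⟨n, hn⟩ := hs2 (F i) (hδ1 i)
    have h1 : s n < F i :=
      lt_of_le_of_lt (hj n) ((hh' (F (j n))).trans (hF i (j n) (hi _ ⟨n, rfl⟩)))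
    exact absurd hn (not_le.2 h1)
  · intro β hβ
    obtain ⟨i, hi⟩ := hδ2 β hβ
    obtain ⟨i', hi'⟩ := hsucc i
    exact ⟨F i', hδ1 i', lt_of_le_of_lt hi ((hh' (F i)).trans (hF i' i hi'))⟩
  · exact ⟨F hne.some, hδ1 _⟩

/-- Closed discrete subsets of `H` have size at most `ℵ₁`. -/
theorem card_discrete (D : Set (L I)) (hD : D ⊆ H I)
    (hd : ∀ x ∈ H I, ∃ β, ∀ d ∈ D, ∀ d' ∈ D, Ag β d x → Ag β d' x → d = d') : #D ≤ ℵ₁ := by
  by_contra hc
  have hI : Nonempty I := idx_nonempty
  choose! β hβ using hd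
  -- the bound of the levels
  have hh : ∀ α : I, ∃ h, ∀ x ∈ H I, β (tr α x) < h := by
    intro α
    obtain ⟨h, hh⟩ := Idx.bdd (β '' {y : L I | ∃ x ∈ H I, y = tr α x}) (mk_image_le.trans (card_tr α))
    exact ⟨h, fun x hx => hh _ ⟨_, ⟨x, hx, rfl⟩, rfl⟩⟩
  choose h hh using hh
  obtain ⟨δ, hδ1, hδ2, hδ3, hδ4⟩ := exists_delta h
  -- two elements with the same truncation
  have hex : ∃ d ∈ D, ∃ d' ∈ D, d ≠ d' ∧ tr δ d = tr δ d' := by
    by_contra hcon
    push Not at hcon
    apply hc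
    have hinj : InjOn (tr δ) D := by
      intro d hd d' hd' h1
      by_contra hne
      exact hcon d hd d' hd' hne h1
    rw [← mk_image_eq_of_injOn _ _ hinj]
    refine (mk_le_mk_of_subset ?_).trans (card_tr δ)
    rintro _ ⟨d, hd, rfl⟩
    exact ⟨d, hD hd, rfl⟩
  obtain ⟨d, hd, d', hd', hne, htr⟩ := hex
  obtain ⟨α, hα, hzero⟩ := supp_bdd_below δ hδ2 hδ3 hδ4 d (hD hd)
  have hy : tr α d ∈ H I := tr_mem α d (hD hd)
  have hlt : β (tr α d) < δ := (hh α d (hD hd)).trans (hδ1 α hα)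
  apply hne
  apply hβ (tr α d) hy d hd d' hd'
  · intro ξ hξ
    rw [co_tr]
    split_ifs with h1
    · rfl
    · exact hzero ξ (not_lt.1 h1) (hξ.trans hlt)
  · intro ξ hξ
    have hξδ : ξ < δ := hξ.trans hlt
    have e1 : co d' ξ = co d ξ := by
      have := congrArg (fun z => co z ξ) htr
      simp only [co_tr, if_pos hξδ] at this
      exact this.symm
    rw [e1, co_tr]
    split_ifs with h1
    · rfl
    · exact hzero ξ (not_lt.1 h1) hξδ

/-- The main statement. -/
theorem no_suitable (S : Set (L I)) (hS : S ⊆ H I)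
    (hdisc : ∀ x ∈ H I, x ≠ 0 → ∃ β, ∀ s ∈ S, Ag β s x → s = x)
    (hdense : ∀ x ∈ H I, ∀ α, ∃ a ∈ AddSubgroup.closure S, Ag α a x) : False := by
  let D : I → Set (L I) := fun α => {s | s ∈ S ∧ ∃ ξ < α, co s ξ ≠ 0}
  have hcard : ∀ α, #(D α) ≤ ℵ₁ := by
    intro α
    apply card_discrete (D α) (fun s hs => hS hs.1)
    intro x hx
    by_cases h0 : x = 0
    · refine ⟨α, fun d hd d' _ hag _ => ?_⟩
      obtain ⟨-, ξ, hξ, hne⟩ := hd
      have := hag ξ hξ
      rw [h0, co_zero] at this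
      exact absurd this hne
    · obtain ⟨β, hβ⟩ := hdisc x hx h0
      refine ⟨β, fun d hd d' hd' h1 h2 => ?_⟩
      rw [hβ d hd.1 h1, hβ d' hd'.1 h2]
  have hI : Nonempty I := idx_nonempty
  choose! bd hbd using fun x (hx : x ∈ H I) => supp_bdd x hx
  have hf : ∀ α, ∃ f, α < f ∧ ∀ s ∈ D α, bd s < f := by
    intro α
    obtain ⟨f, hf⟩ := Idx.bdd ((bd '' D α) ∪ {α}) (by
      refine (mk_union_le _ _).trans ?_
      refine (add_le_add (mk_image_le.trans (hcard α)) (mk_singleton α).le).trans ?_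
      rw [add_one_eq (aleph0_le_aleph 1)])
    exact ⟨f, hf α (Or.inr rfl), fun s hs => hf _ (Or.inl ⟨s, hs, rfl⟩)⟩
  choose f hf1 hf2 using hf
  obtain ⟨γ₀, -⟩ := Idx.bdd (∅ : Set I) (by simp)
  let γs : ℕ → I := fun n => f^[n] γ₀
  have hγs : ∀ n, γs (n + 1) = f (γs n) := fun n => Function.iterate_succ_apply' f n γ₀
  have hmono : StrictMono γs := by
    apply strictMono_nat_of_lt_succ
    intro n
    rw [hγs]
    exact hf1 _
  obtain ⟨γ, hγ1, hγ2⟩ := exists_lub γs (by
    rw [mk_nat]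
    exact aleph0_le_aleph 1)
  have hγE : γ ∈ E I := ⟨γs, hmono, hγ1, hγ2⟩
  let P : AddSubgroup (L I) :=
    { carrier := {x | ∃ b < γ, ∀ ξ, b ≤ ξ → ξ < γ → co x ξ = 0}
      zero_mem' := ⟨γs 0, hγ1 0, fun _ _ _ => rfl⟩
      add_mem' := by
        rintro x y ⟨b, hbγ, hb⟩ ⟨c, hcγ, hc⟩
        refine ⟨max b c, max_lt hbγ hcγ, fun ξ hξ hξγ => ?_⟩
        rw [co_add, hb ξ ((le_max_left _ _).trans hξ) hξγ, hc ξ ((le_max_right _ _).trans hξ) hξγ,
          add_zero]
      neg_mem' := by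
        rintro x ⟨b, hbγ, hb⟩
        refine ⟨b, hbγ, fun ξ hξ hξγ => ?_⟩
        rw [co_neg, hb ξ hξ hξγ, neg_zero] }
  have hSP : S ⊆ P := by
    intro s hs
    by_cases h1 : ∃ ξ < γ, co s ξ ≠ 0
    · obtain ⟨ξ, hξ, hne⟩ := h1
      obtain ⟨n, hn⟩ := hγ2 ξ hξ
      have hsD : s ∈ D (γs (n + 1)) := ⟨hs, ξ, lt_of_le_of_lt hn (hmono (Nat.lt_succ_self n)), hne⟩
      refine ⟨bd s, ?_, fun η hη _ => hbd s (hS hs) η hη⟩
      have := hf2 _ s hsD
      rw [← hγs] at this
      exact this.trans (hγ1 _)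
    · push Not at h1
      exact ⟨γs 0, hγ1 0, fun η _ hη => h1 η hη⟩
  obtain ⟨a, ha, hag⟩ := hdense (ga γ) (ga_mem γ) γ
  have haP : a ∈ P := (AddSubgroup.closure_le P).2 hSP ha
  obtain ⟨b, hb, hzero⟩ := haP
  obtain ⟨ξ, hbξ, hξγ, h1⟩ := ga_unbdd γ hγE b hb
  have h2 := hag ξ hξγ
  rw [hzero ξ hbξ hξγ, h1] at h2
  exact absurd h2 (by norm_num)

end Q16.Lad
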