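import Mathlib
import Pool.Agent.Q16.Lad.Comb

/-!
# The ordered group `H ×ₗ H` with its order topology
-/

open Cardinal Set Filter Topology

namespace Q16.Lad

variable (I : Type) [LinearOrder I] [WellFoundedLT I]

/-- The group `H ×ₗ H`. -/
abbrev G2 : Type := (H I) ×ₗ (H I)

/-- The order topology. -/
noncomputable instance instTopG2 : TopologicalSpace (G2 I) := Preorder.topology (G2 I)

instance instOrdG2 : OrderTopology (G2 I) := ⟨rfl⟩

variable {I}

/-- Pairs. -/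
def pr (h x : H I) : G2 I := toLex (h, x)

theorem pr_inj {h x h' x' : H I} : pr h x = pr h' x' ↔ h = h' ∧ x = x' := by
  constructor
  · intro h1
    have := congrArg ofLex h1
    exact ⟨congrArg Prod.fst this, congrArg Prod.snd this⟩
  · rintro ⟨rfl, rfl⟩
    rfl

theorem exists_pr (g : G2 I) : ∃ h x, g = pr h x := ⟨(ofLex g).1, (ofLex g).2, rfl⟩

theorem pr_add (h x h' x' : H I) : pr h x + pr h' x' = pr (h + h') (x + x') := rfl

theorem pr_neg (h x : H I) : -pr h x = pr (-h) (-x) := rfl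

theorem pr_sub (h x h' x' : H I) : pr h x - pr h' x' = pr (h - h') (x - x') := rfl

theorem pr_zero : pr (0 : H I) 0 = 0 := rfl

theorem pr_lt (h x h' x' : H I) : pr h x < pr h' x' ↔ h < h' ∨ h = h' ∧ x < x' := by
  rw [Prod.Lex.lt_iff]
  rfl

theorem lt_iff' (x y : H I) :
    x < y ↔ ∃ ξ, (∀ η < ξ, co (x : L I) η = co (y : L I) η) ∧ co (x : L I) ξ < co (y : L I) ξ :=
  Iff.rfl

/-- The unit vector as an element of `H`. -/
noncomputable def eH (α : I) : H I := ⟨e α, e_mem α⟩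

theorem co_eH_lt (α ξ : I) (h : ξ < α) : co (eH α : L I) ξ = 0 := by
  change co (e α) ξ = 0
  rw [co_e, if_neg h.ne]

theorem eH_pos (α : I) : (0 : H I) < eH α := by
  rw [lt_iff']
  refine ⟨α, fun η hη => ?_, ?_⟩
  · rw [co_eH_lt α η hη]
    rfl
  · change (0 : ℤ) < co (e α) α
    rw [co_e, if_pos rfl]
    norm_num

theorem between (α : I) (y : H I) (h1 : -eH α < y) (h2 : y < eH α) : Ag α (y : L I) 0 := by
  rw [lt_iff'] at h1 h2
  obtain ⟨η, hη, h1⟩ := h1
  obtain ⟨ξ, hξ, h2⟩ := h2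
  have hneg : ∀ ζ, co ((-eH α : H I) : L I) ζ = -co (eH α : L I) ζ := fun ζ => rfl
  by_cases h3 : α ≤ ξ
  · intro ζ hζ
    rw [hξ ζ (lt_of_lt_of_le hζ h3), co_eH_lt α ζ hζ]
    rfl
  · by_cases h4 : α ≤ η
    · intro ζ hζ
      rw [← hη ζ (lt_of_lt_of_le hζ h4), hneg, co_eH_lt α ζ hζ]
      rfl
    · exfalso
      rw [not_le] at h3 h4
      rw [co_eH_lt α ξ h3] at h2
      rw [hneg, co_eH_lt α η h4, neg_zero] at h1
      rcases lt_trichotomy ξ η with h | h | h
      · have := hη ξ h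
        rw [hneg, co_eH_lt α ξ h3, neg_zero] at this
        rw [← this] at h2
        exact lt_irrefl _ h2
      · subst h
        exact lt_asymm h1 h2
      · have := hξ η h
        rw [co_eH_lt α η h4] at this
        rw [this] at h1
        exact lt_irrefl _ h1

variable [Idx I]

instance : Nontrivial (G2 I) := by
  obtain ⟨α⟩ := idx_nonempty (I := I)
  refine ⟨pr 0 (eH α), pr 0 0, ?_⟩
  intro h
  exact (eH_pos α).ne' (pr_inj.1 h).2

theorem nhds_sub {h x : H I} {U : Set (G2 I)} (hU : U ∈ 𝓝 (pr h x)) :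
    ∃ α, ∀ y : H I, Ag α (y : L I) x → pr h y ∈ U := by
  rw [(nhds_basis_abs_sub_lt (pr h x)).mem_iff] at hU
  obtain ⟨ε, hε, hU⟩ := hU
  obtain ⟨p, q, rfl⟩ := exists_pr ε
  rw [← pr_zero, pr_lt] at hε
  have key : ∃ α, ∀ z : H I, Ag α (z : L I) 0 → |pr 0 z| < pr p q := by
    rcases hε with hp | ⟨hp, hq⟩
    · obtain ⟨α⟩ := idx_nonempty (I := I)
      refine ⟨α, fun z _ => ?_⟩
      rw [abs_lt, pr_neg, pr_lt, pr_lt]
      exact ⟨Or.inl (neg_lt_zero.2 hp), Or.inl hp⟩
    · obtain ⟨ξ, hξ, hlt⟩ := (lt_iff' _ _).1 hq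
      obtain ⟨α, hα⟩ := exists_gt' ξ
      refine ⟨α, fun z hz => ?_⟩
      have hz' : ∀ ζ < α, co (z : L I) ζ = 0 := hz
      have h0 : ∀ ζ, co ((0 : H I) : L I) ζ = 0 := fun ζ => rfl
      rw [abs_lt, pr_neg, pr_lt, pr_lt]
      refine ⟨Or.inr ⟨by rw [← hp, neg_zero], ?_⟩, Or.inr ⟨hp, ?_⟩⟩
      · rw [lt_iff']
        refine ⟨ξ, fun η hη => ?_, ?_⟩
        · change -co (q : L I) η = _
          rw [← hξ η hη, h0, neg_zero, hz' η (hη.trans hα)]
        · change -co (q : L I) ξ < _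
          rw [hz' ξ hα]
          rw [h0] at hlt
          linarith
      · rw [lt_iff']
        refine ⟨ξ, fun η hη => ?_, ?_⟩
        · rw [← hξ η hη, h0, hz' η (hη.trans hα)]
        · rw [hz' ξ hα]
          rw [h0] at hlt
          exact hlt
  obtain ⟨α, hα⟩ := key
  refine ⟨α, fun y hy => hU ?_⟩
  change |pr h y - pr h x| < pr p q
  rw [pr_sub, sub_self]
  apply hα
  intro ξ hξ
  change co (y : L I) ξ - co (x : L I) ξ = 0
  rw [hy ξ hξ, sub_self]

theorem nhds_mem (h x : H I) (α : I) :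
    {g : G2 I | ∃ y : H I, Ag α (y : L I) x ∧ g = pr h y} ∈ 𝓝 (pr h x) := by
  rw [(nhds_basis_abs_sub_lt (pr h x)).mem_iff]
  refine ⟨pr 0 (eH α), ?_, ?_⟩
  · rw [← pr_zero, pr_lt]
    exact Or.inr ⟨rfl, eH_pos α⟩
  · intro g hg
    obtain ⟨h', y, rfl⟩ := exists_pr g
    change |pr h' y - pr h x| < pr 0 (eH α) at hg
    rw [pr_sub, abs_lt, pr_neg, pr_lt, pr_lt, neg_zero] at hg
    have h1 : h' = h := by
      rcases hg.1 with h1 | h1
      · rcases hg.2 with h2 | h2
        · exact absurd (h1.trans h2) (lt_irrefl _)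
        · exact sub_eq_zero.1 h2.1
      · exact sub_eq_zero.1 h1.1.symm
    subst h1
    have h2 : -eH α < y - x := by
      rcases hg.1 with h2 | h2
      · rw [sub_self] at h2
        exact absurd h2 (lt_irrefl _)
      · exact h2.2
    have h3 : y - x < eH α := by
      rcases hg.2 with h3 | h3
      · rw [sub_self] at h3
        exact absurd h3 (lt_irrefl _)
      · exact h3.2
    refine ⟨y, ?_, rfl⟩
    intro ξ hξ
    have h4 : co (y : L I) ξ - co (x : L I) ξ = 0 := between α (y - x) h2 h3 ξ hξ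
    exact sub_eq_zero.1 h4

end Q16.Lad
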